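import Pool.Agent.H74.OLP.Targets2

/-!
# Locally planar cubic graphs: directions
-/

set_option autoImplicit false
open scoped Classical
open Finset

namespace Pool.Agent.H85.OLP

open Pool.Agent.H74.OLP

variable {V E F : Type} {M : CMap V E F}

theorem out_ed (hM : M.OK) (f : F) (i : ℤ) (v : V) :
    M.out f (M.ed f i) v = if M.vt f i = v then 1 else 0 := by
  unfold CMap.out
  by_cases h : M.vt f i = v
  · rw [if_pos h, if_pos ⟨i, rfl, h⟩]
  · rw [if_neg h, if_neg]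
    rintro ⟨j, hj, hv⟩
    apply h
    rw [← hv]
    exact (hM.vt_eq f i j).2 (by
      have := (hM.ed_eq f j i).1 hj
      rw [show i - j = -(j - i) by ring]
      exact (dvd_neg).2 this)

theorem vt_ne (hM : M.OK) (f : F) (i : ℤ) : M.vt f i ≠ M.vt f (i + 1) := by
  intro h
  have h1 := (hM.vt_eq f i (i + 1)).1 h
  have h3 := hM.d3 f
  rw [show i - (i + 1) = -1 by ring, dvd_neg] at h1
  have h2 := Int.le_of_dvd one_pos h1
  omega

theorem out1 (hM : M.OK) (f : F) (i : ℤ) : M.out f (M.ed f i) (M.vt f i) = 1 := by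
  rw [out_ed hM, if_pos rfl]

theorem out0 (hM : M.OK) (f : F) (i : ℤ) : M.out f (M.ed f i) (M.vt f (i + 1)) = 0 := by
  rw [out_ed hM, if_neg (vt_ne hM f i)]

theorem dir1 (hM : M.OK) (e : E) (f : F) (h : M.OnF e f) :
    M.out f e (M.s e) + M.out f e (M.t e) = 1 := by
  obtain ⟨i, rfl⟩ := (hM.on e f).1 h
  rcases hM.jn f i with ⟨h1, h2⟩ | ⟨h1, h2⟩
  · rw [h1, h2, out1 hM, out0 hM, add_zero]
  · rw [h1, h2, out1 hM, out0 hM, zero_add]

theorem onv (hM : M.OK) (f : F) (i : ℤ) (v : V) (h : M.OnV (M.ed f i) v) :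
    v = M.vt f i ∨ v = M.vt f (i + 1) := by
  unfold CMap.OnV at h
  rcases hM.jn f i with ⟨h1, h2⟩ | ⟨h1, h2⟩
  · rw [h1, h2] at h
    exact h.imp Eq.symm Eq.symm
  · rw [h1, h2] at h
    exact (h.imp Eq.symm Eq.symm).symm

theorem dir2 (hM : M.OK) (f : F) (e e' : E) (v : V) (h : M.OnF e f) (h' : M.OnF e' f)
    (hv : M.OnV e v) (hv' : M.OnV e' v) (hne : e ≠ e') :
    M.out f e v + M.out f e' v = 1 := by
  obtain ⟨i, rfl⟩ := (hM.on e f).1 h
  obtain ⟨j, rfl⟩ := (hM.on e' f).1 h'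
  rcases onv hM f i v hv with h1 | h1 <;> rcases onv hM f j v hv' with h2 | h2
  · exact absurd ((hM.ed_eq f i j).2 ((hM.vt_eq f i j).1 (by rw [← h1, ← h2]))) hne
  · have e1 : M.out f (M.ed f i) v = 1 := by rw [h1]; exact out1 hM f i
    have e2 : M.out f (M.ed f j) v = 0 := by rw [h2]; exact out0 hM f j
    rw [e1, e2, add_zero]
  · have e1 : M.out f (M.ed f i) v = 0 := by rw [h1]; exact out0 hM f i
    have e2 : M.out f (M.ed f j) v = 1 := by rw [h2]; exact out1 hM f j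
    rw [e1, e2, zero_add]
  · have h3 := (hM.vt_eq f (i + 1) (j + 1)).1 (by rw [← h1, ← h2])
    rw [show i + 1 - (j + 1) = i - j by ring] at h3
    exact absurd ((hM.ed_eq f i j).2 h3) hne

theorem two0 : (2 : R) = 0 := by decide

theorem dir3 (hM : M.OK) (e : E) :
    M.D1 e = 1 + M.out (M.l e) e (M.t e) + M.out (M.r e) e (M.t e) := by
  have h1 := dir1 hM e (M.l e) (Or.inl rfl)
  have h2 := dir1 hM e (M.r e) (Or.inr rfl)
  unfold CMap.D1
  linear_combination h1 + h2 + (1 - M.out (M.l e) e (M.t e) - M.out (M.r e) e (M.t e)) * two0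

theorem d1v (hM : M.OK) (e : E) (v : V) (hv : M.OnV e v) :
    M.D1 e = 1 + M.out (M.l e) e v + M.out (M.r e) e v := by
  rcases hv with h | h
  · rw [← h]; rfl
  · rw [← h]; exact dir3 hM e

theorem pairF (hM : M.OK) (e : E) (v : V) (hv : M.OnV e v) (y z : F)
    (hf : ∀ f, M.OnF e f ↔ (f = y ∨ f = z)) :
    M.D1 e = 1 + M.out y e v + M.out z e v := by
  rw [d1v hM e v hv]
  have h1 := (hf (M.l e)).1 (Or.inl rfl)
  have h2 := (hf (M.r e)).1 (Or.inr rfl)
  have hne := hM.lr e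
  rcases h1 with h1 | h1 <;> rcases h2 with h2 | h2
  · exact absurd (h1.trans h2.symm) hne
  · rw [h1, h2]
  · rw [h1, h2]; ring
  · exact absurd (h1.trans h2.symm) hne

theorem pf_DIR (h1 : T_ZGV) : T_DIR := by
  intro V E F _ _ _ M hM
  refine ⟨dir1 hM, dir2 hM, dir3 hM, ?_⟩
  intro v
  obtain ⟨a, b, c, x, y, z, hab, hbc, hac, hxy, hyz, hxz, hv, fa, fb, fc⟩ := hM.tri v
  rw [h1 V E F M hM M.D1 v a b c hab hbc hac hv]
  have va : M.OnV a v := (hv a).2 (Or.inl rfl)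
  have vb : M.OnV b v := (hv b).2 (Or.inr (Or.inl rfl))
  have vc : M.OnV c v := (hv c).2 (Or.inr (Or.inr rfl))
  rw [pairF hM a v va y z fa, pairF hM b v vb z x fb, pairF hM c v vc x y fc]
  have ex := dir2 hM x b c v ((fb x).2 (Or.inr rfl)) ((fc x).2 (Or.inl rfl)) vb vc hbc
  have ey := dir2 hM y a c v ((fa y).2 (Or.inl rfl)) ((fc y).2 (Or.inr rfl)) va vc hac
  have ez := dir2 hM z a b v ((fa z).2 (Or.inr rfl)) ((fb z).2 (Or.inl rfl)) va vb hab
  linear_combination ex + ey + ez + 3 * two0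

end Pool.Agent.H85.OLP
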